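import Pool.Agent.Lib_MP_01c500.Final

set_option autoImplicit false

namespace Pool.Agent.Results.MP_01c500_co.DeletedChromatic

/-- For every number `q` of colours there is a constant `C` such that, for every finite graph `H`
without isolated vertices, with `m` edges, and for every set `A` of vertices of `H` whose deletion
leaves a `k`-colourable graph, the `q`-colour Ramsey number of `H` is at most
`2 ^ (C (|A| + √(k m)))`. -/
theorem result : ∀ q : ℕ, 1 ≤ q → ∃ C : ℝ,
    ∀ (V : Type) [Fintype V] (H : SimpleGraph V) [DecidableRel H.Adj],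
      (∀ v : V, ∃ w : V, H.Adj v w) →
      ∀ (A : Finset V) (k : ℕ), (H.induce {v | v ∉ A}).Colorable k →
      ∃ n : ℕ, (n : ℝ) ≤
          (2 : ℝ) ^ (C * ((A.card : ℝ) + Real.sqrt ((k : ℝ) * (H.edgeFinset.card : ℝ)))) ∧
        ∀ col : Sym2 (Fin n) → Fin q, ∃ i : Fin q, ∃ f : V → Fin n,
          Function.Injective f ∧ ∀ u v : V, H.Adj u v → col s(f u, f v) = i :=
  fun q hq => Pool.Agent.LibMP01c500.final q hq

end Pool.Agent.Results.MP_01c500_co.DeletedChromatic
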