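import Pool.Agent.Lib_MP_01c500_t.Final

set_option autoImplicit false

namespace Pool.Agent.Results.MP_01c500_co.FewTriangles

/-- Multicolour Ramsey numbers of graphs with few triangles on each edge. For every number `q` of
colours there is a constant `C` such that, for every finite graph `H` without isolated vertices, with
`m` edges, and every set `A` of vertices of `H` such that every vertex outside `A` has at most `D`
neighbours outside `A` and any two adjacent vertices outside `A` have at most `lam` common neighbours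
outside `A`, the `q`-colour Ramsey number of `H` is at most
`2 ^ (C (|A| + min(D, √m)) (lam + 1) ^ (q - 2) (log (m + 1)) ^ (q + 1))`.
For triangle-free `H` one can take `A = ∅`, `lam = 0`: `2 ^ (C √m (log (m + 1)) ^ (q + 1))`. -/
theorem result : ∀ q : ℕ, 2 ≤ q → ∃ C : ℝ,
    ∀ (V : Type) [Fintype V] (H : SimpleGraph V) [DecidableRel H.Adj],
      (∀ v : V, ∃ w : V, H.Adj v w) →
      ∀ (A : Finset V) (D lam : ℕ),
        (∀ v : V, v ∉ A → {w : V | w ∉ A ∧ H.Adj v w}.ncard ≤ D) →
        (∀ v w : V, v ∉ A → w ∉ A → H.Adj v w →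
          {u : V | u ∉ A ∧ H.Adj u v ∧ H.Adj u w}.ncard ≤ lam) →
      ∃ n : ℕ, (n : ℝ) ≤ (2 : ℝ) ^
          (C * ((A.card : ℝ) + min (D : ℝ) (Real.sqrt (H.edgeFinset.card : ℝ))) *
            ((lam : ℝ) + 1) ^ (q - 2) * Real.log ((H.edgeFinset.card : ℝ) + 1) ^ (q + 1)) ∧
        ∀ col : Sym2 (Fin n) → Fin q, ∃ i : Fin q, ∃ f : V → Fin n,
          Function.Injective f ∧ ∀ u v : V, H.Adj u v → col s(f u, f v) = i :=
  MP01T.final

end Pool.Agent.Results.MP_01c500_co.FewTriangles
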