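import Pool.Agent.Lib_MP_01c500.TFinal

set_option autoImplicit false

namespace Pool.Agent.Results.MP_01c500_co.ThreeColours

/-- Three colours. There is a constant `C` such that for every finite graph `H` with `m` edges and
no isolated vertices, every set `A` of its vertices such that every vertex outside `A` has at most
`d` neighbours outside `A`, and every `f` splitting the vertices outside `A` into `k` classes in
which every vertex has at most `r` neighbours of its own class, the three-colour Ramsey number of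
`H` is at most `2 ^ (C (log m + 1)^12 min(m^(3/5), |A| + min(d^(3/2), (k + r) d) + 1))`. -/
theorem result : ∃ C : ℝ, ∀ (V : Type) [Fintype V] (H : SimpleGraph V) [DecidableRel H.Adj],
      (∀ v : V, ∃ w : V, H.Adj v w) →
      ∀ (A : Finset V) (d k r : ℕ) (f : V → ℕ),
      (∀ v : V, v ∉ A → (H.neighborSet v \ (A : Set V)).ncard ≤ d) →
      (∀ v : V, v ∉ A → f v < k) →
      (∀ v : V, v ∉ A → {w : V | w ∉ A ∧ H.Adj v w ∧ f w = f v}.ncard ≤ r) →
      ∃ N : ℕ, (N : ℝ) ≤ (2 : ℝ) ^ (C * (Real.log H.edgeFinset.card + 1) ^ 12 *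
          min ((H.edgeFinset.card : ℝ) ^ ((3 : ℝ) / 5))
            ((A.card : ℝ) + min ((d : ℝ) ^ ((3 : ℝ) / 2)) (((k : ℝ) + r) * d) + 1)) ∧
        ∀ col : Sym2 (Fin N) → Fin 3, ∃ i : Fin 3, ∃ g : V → Fin N,
          Function.Injective g ∧ ∀ u v : V, H.Adj u v → col s(g u, g v) = i :=
  Pool.Agent.LibMP01c500.final3

end Pool.Agent.Results.MP_01c500_co.ThreeColours
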